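import Mathlib

/-!
# The additive large sieve inequality (with a logarithmic loss)

Halász–Montgomery duality together with the Schur test.
-/

set_option autoImplicit false

namespace Pool.Agent.Lib.LargeSieve

open Finset Complex
open scoped ComplexConjugate

/-- Halász–Montgomery / Bombieri inequality. -/
theorem halasz {ι κ : Type*} (S : Finset ι) (T : Finset κ) (v : ι → κ → ℂ) (c : κ → ℂ) (Δ : ℝ)
    (hΔ0 : 0 ≤ Δ)
    (hΔ : ∀ r ∈ S, ∑ s ∈ S, ‖∑ m ∈ T, v r m * conj (v s m)‖ ≤ Δ) :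
    ∑ r ∈ S, ‖∑ m ∈ T, c m * v r m‖ ^ 2 ≤ Δ * ∑ m ∈ T, ‖c m‖ ^ 2 := by
  set b : ι → ℂ := fun r => ∑ m ∈ T, c m * v r m with hb
  set B : ℝ := ∑ r ∈ S, ‖b r‖ ^ 2 with hB
  set h : κ → ℂ := fun m => ∑ r ∈ S, conj (b r) * v r m with hh
  set G : ι → ι → ℝ := fun r s => ‖∑ m ∈ T, v r m * conj (v s m)‖ with hG
  have hB0 : 0 ≤ B := sum_nonneg fun _ _ => by positivity
  have hC0 : 0 ≤ ∑ m ∈ T, ‖c m‖ ^ 2 := sum_nonneg fun _ _ => by positivity
  have hGs : ∀ r s, G r s = G s r := by
    intro r s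
    simp only [hG]
    rw [← norm_conj, map_sum]
    congr 1
    refine sum_congr rfl fun m _ => ?_
    simp [mul_comm]
  have e1 : (B : ℂ) = ∑ m ∈ T, c m * h m := by
    simp only [hB, hh, mul_sum]
    rw [sum_comm]
    push_cast
    refine sum_congr rfl fun r _ => ?_
    rw [← Complex.conj_mul']
    conv_lhs => rw [hb]
    simp only [mul_sum]
    refine sum_congr rfl fun m _ => ?_
    ring
  have e2 : B ≤ ∑ m ∈ T, ‖c m‖ * ‖h m‖ := by
    have : B = ‖(B : ℂ)‖ := by rw [Complex.norm_real, Real.norm_of_nonneg hB0]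
    rw [this, e1]
    refine (norm_sum_le _ _).trans (le_of_eq ?_)
    simp
  have e3 : ((∑ m ∈ T, ‖h m‖ ^ 2 : ℝ) : ℂ)
      = ∑ r ∈ S, ∑ s ∈ S, conj (b r) * b s * ∑ m ∈ T, v r m * conj (v s m) := by
    push_cast
    have : ∀ m, ((‖h m‖ : ℂ)) ^ 2 = ∑ r ∈ S, ∑ s ∈ S, conj (b r) * b s * (v r m * conj (v s m)) := by
      intro m
      rw [← Complex.mul_conj']
      simp only [hh, map_sum, map_mul, Complex.conj_conj, sum_mul_sum]
      refine sum_congr rfl fun r _ => sum_congr rfl fun s _ => by ring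
    simp only [this, mul_sum]
    rw [sum_comm]
    refine sum_congr rfl fun r _ => ?_
    rw [sum_comm]
  have e4 : ∑ m ∈ T, ‖h m‖ ^ 2 ≤ Δ * B := by
    have h0 : 0 ≤ ∑ m ∈ T, ‖h m‖ ^ 2 := sum_nonneg fun _ _ => by positivity
    have : ∑ m ∈ T, ‖h m‖ ^ 2 = ‖((∑ m ∈ T, ‖h m‖ ^ 2 : ℝ) : ℂ)‖ := by
      rw [Complex.norm_real, Real.norm_of_nonneg h0]
    rw [this, e3]
    calc _ ≤ ∑ r ∈ S, ∑ s ∈ S, (‖b r‖ ^ 2 / 2 * G r s + ‖b s‖ ^ 2 / 2 * G s r) := by
          refine (norm_sum_le _ _).trans (sum_le_sum fun r _ => ?_)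
          refine (norm_sum_le _ _).trans (sum_le_sum fun s _ => ?_)
          rw [norm_mul, norm_mul, norm_conj, hGs s r]
          have hg : 0 ≤ G r s := norm_nonneg _
          have := mul_nonneg (sq_nonneg (‖b r‖ - ‖b s‖)) hg
          change ‖b r‖ * ‖b s‖ * G r s ≤ _
          nlinarith
      _ = ∑ r ∈ S, ‖b r‖ ^ 2 * ∑ s ∈ S, G r s := by
          simp only [sum_add_distrib]
          rw [sum_comm (f := fun r s => ‖b s‖ ^ 2 / 2 * G s r), ← sum_add_distrib]
          refine sum_congr rfl fun r _ => ?_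
          rw [← mul_sum]; ring
      _ ≤ ∑ r ∈ S, ‖b r‖ ^ 2 * Δ :=
          sum_le_sum fun r hr => mul_le_mul_of_nonneg_left (hΔ r hr) (by positivity)
      _ = Δ * B := by rw [← sum_mul, mul_comm]
  have e5 : B ^ 2 ≤ (∑ m ∈ T, ‖c m‖ ^ 2) * (Δ * B) := by
    calc B ^ 2 ≤ (∑ m ∈ T, ‖c m‖ * ‖h m‖) ^ 2 := pow_le_pow_left₀ hB0 e2 2
      _ ≤ (∑ m ∈ T, ‖c m‖ ^ 2) * ∑ m ∈ T, ‖h m‖ ^ 2 := sum_mul_sq_le_sq_mul_sq _ _ _
      _ ≤ _ := mul_le_mul_of_nonneg_left e4 hC0
  rcases hB0.eq_or_lt with h0 | h0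
  · rw [← h0]; positivity
  · have : B * B ≤ (Δ * ∑ m ∈ T, ‖c m‖ ^ 2) * B := by nlinarith
    exact le_of_mul_le_mul_right this h0

/-- `ee x = exp (2 π i x)`. -/
noncomputable def ee (x : ℝ) : ℂ := Complex.exp (I * ((2 * Real.pi * x : ℝ) : ℂ))

theorem ee_add (x y : ℝ) : ee (x + y) = ee x * ee y := by
  unfold ee; rw [← Complex.exp_add]; congr 1; push_cast; ring

theorem norm_ee (x : ℝ) : ‖ee x‖ = 1 := by
  unfold ee; rw [mul_comm]; exact Complex.norm_exp_ofReal_mul_I _

theorem conj_ee (x : ℝ) : conj (ee x) = ee (-x) := by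
  unfold ee; rw [← Complex.exp_conj, map_mul, Complex.conj_ofReal, Complex.conj_I]
  congr 1; push_cast; ring

theorem ee_nat_mul (m : ℕ) (x : ℝ) : ee (m * x) = ee x ^ m := by
  unfold ee; rw [← Complex.exp_nat_mul]; congr 1; push_cast; ring

theorem ee_int (k : ℤ) : ee k = 1 := by
  unfold ee
  rw [← Complex.exp_int_mul_two_pi_mul_I k]; congr 1; push_cast; ring

theorem ee_fract (x : ℝ) : ee (Int.fract x) = ee x := by
  conv_rhs => rw [← Int.floor_add_fract x, ee_add, ee_int, one_mul]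

theorem norm_ee_sub_one {β : ℝ} (h0 : 0 < β) (h1 : β < 1) :
    4 * min β (1 - β) ≤ ‖ee β - 1‖ := by
  unfold ee
  rw [Complex.norm_exp_I_mul_ofReal_sub_one]
  have hpi := Real.pi_pos
  have e : 2 * Real.pi * β / 2 = Real.pi * β := by ring
  rw [e]
  have key : ∀ γ : ℝ, 0 < γ → γ ≤ 1 / 2 → 2 * γ ≤ Real.sin (Real.pi * γ) := by
    intro γ g0 g1
    have := Real.mul_le_sin (x := Real.pi * γ) (by positivity) (by nlinarith)
    have e2 : 2 / Real.pi * (Real.pi * γ) = 2 * γ := by field_simp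
    linarith
  have hs : 2 * min β (1 - β) ≤ Real.sin (Real.pi * β) := by
    rcases le_total β (1 / 2) with h | h
    · have := key β h0 h
      have := min_le_left β (1 - β)
      linarith
    · have := key (1 - β) (by linarith) (by linarith)
      have e3 : Real.pi * (1 - β) = Real.pi - Real.pi * β := by ring
      rw [e3, Real.sin_pi_sub] at this
      have := min_le_right β (1 - β)
      linarith
  rw [Real.norm_eq_abs]
  have := le_abs_self (2 * Real.sin (Real.pi * β))
  linarith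

theorem geom_bound (X : ℕ) {x : ℝ} (h0 : 0 < Int.fract x) :
    ‖∑ m ∈ range X, ee (m * x)‖ ≤ 1 / (2 * Int.fract x) + 1 / (2 * Int.fract (-x)) := by
  have h1 := Int.fract_lt_one x
  rw [Int.fract_neg h0.ne']
  set β := Int.fract x with hβ
  have hk := norm_ee_sub_one h0 h1
  have hm : 0 < min β (1 - β) := lt_min h0 (by linarith)
  have hx : ee x = ee β := (ee_fract x).symm
  simp only [ee_nat_mul, hx]
  have hne : ee β ≠ 1 := by
    intro h; rw [h, sub_self, norm_zero] at hk; linarith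
  rw [geom_sum_eq hne, norm_div]
  have hn : ‖ee β ^ X - 1‖ ≤ 2 := by
    refine (norm_sub_le _ _).trans ?_
    rw [norm_pow, norm_ee, one_pow, norm_one]; norm_num
  have h2 : ‖ee β ^ X - 1‖ / ‖ee β - 1‖ ≤ 2 / (4 * min β (1 - β)) :=
    div_le_div₀ (by norm_num) hn (by positivity) hk
  refine h2.trans ?_
  have hb : 0 < 1 - β := by linarith
  rcases le_total β (1 - β) with h | h
  · rw [min_eq_left h]
    have : 2 / (4 * β) = 1 / (2 * β) := by field_simp; ring
    have : 0 ≤ 1 / (2 * (1 - β)) := by positivity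
    linarith
  · rw [min_eq_right h]
    have : 2 / (4 * (1 - β)) = 1 / (2 * (1 - β)) := by field_simp; ring
    have : 0 ≤ 1 / (2 * β) := by positivity
    linarith

theorem spaced_sum {ι : Type*} [DecidableEq ι] (S : Finset ι) (α : ι → ℝ) (Y : ℕ)
    (hsp : ∀ r ∈ S, ∀ s ∈ S, r ≠ s → 1 ≤ Y * Int.fract (α r - α s)) {r : ι} (hr : r ∈ S) :
    ∑ s ∈ S.erase r, 1 / Int.fract (α r - α s) ≤ Y * (1 + Real.log Y) := by
  set k : ι → ℕ := fun s => ⌊Y * Int.fract (α r - α s)⌋₊ with hk
  have hk1 : ∀ s ∈ S.erase r, 1 ≤ k s := by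
    intro s hs
    rw [mem_erase] at hs
    exact Nat.le_floor (by simpa using hsp r hr s hs.2 (Ne.symm hs.1))
  have hk2 : ∀ s, k s ≤ Y := by
    intro s
    have h1 := (Int.fract_lt_one (α r - α s)).le
    have : (Y : ℝ) * Int.fract (α r - α s) ≤ Y := by
      have : (0 : ℝ) ≤ Y := Nat.cast_nonneg _
      nlinarith
    exact Nat.floor_le_of_le this
  have aux : ∀ s ∈ S, ∀ s' ∈ S, s ≠ s' → Int.fract (α r - α s') ≤ Int.fract (α r - α s) →
      k s ≠ k s' := by
    intro s hs s' hs' hne hle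
    have e : Int.fract (α s' - α s) = Int.fract (α r - α s) - Int.fract (α r - α s') := by
      rw [Int.fract_eq_iff]
      refine ⟨by linarith, ?_, ⌊α r - α s⌋ - ⌊α r - α s'⌋, ?_⟩
      · have := Int.fract_lt_one (α r - α s)
        have := Int.fract_nonneg (α r - α s')
        linarith
      · have h1 := Int.floor_add_fract (α r - α s)
        have h2 := Int.floor_add_fract (α r - α s')
        push_cast
        linarith
    have h1 := hsp s' hs' s hs (Ne.symm hne)
    rw [e] at h1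
    have h0 : 0 ≤ (Y : ℝ) * Int.fract (α r - α s') := mul_nonneg (Nat.cast_nonneg _) (Int.fract_nonneg _)
    have : k s' + 1 ≤ k s := by
      simp only [hk]
      rw [← Nat.floor_add_one h0]
      exact Nat.floor_le_floor (by linarith)
    omega
  have hinj : Set.InjOn k (S.erase r : Set ι) := by
    intro s hs s' hs' he
    by_contra hne
    have hs1 := mem_of_mem_erase (mem_coe.1 hs)
    have hs2 := mem_of_mem_erase (mem_coe.1 hs')
    rcases le_total (Int.fract (α r - α s')) (Int.fract (α r - α s)) with h | h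
    · exact aux s hs1 s' hs2 hne h he
    · exact aux s' hs2 s hs1 (Ne.symm hne) h he.symm
  calc ∑ s ∈ S.erase r, 1 / Int.fract (α r - α s) ≤ ∑ s ∈ S.erase r, (Y : ℝ) * ((k s : ℝ))⁻¹ := by
        refine sum_le_sum fun s hs => ?_
        have h1 : (1 : ℝ) ≤ k s := by exact_mod_cast hk1 s hs
        have h0 : 0 ≤ (Y : ℝ) * Int.fract (α r - α s) :=
          mul_nonneg (Nat.cast_nonneg _) (Int.fract_nonneg _)
        have h2 : (k s : ℝ) ≤ Y * Int.fract (α r - α s) := Nat.floor_le h0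
        have h3 : 0 < Int.fract (α r - α s) := by
          rcases (Int.fract_nonneg (α r - α s)).eq_or_lt with h | h
          · rw [← h] at h2; linarith
          · exact h
        rw [← div_eq_mul_inv, div_le_div_iff₀ h3 (by linarith)]
        linarith
    _ = Y * ∑ j ∈ (S.erase r).image k, ((j : ℝ))⁻¹ := by
        rw [sum_image hinj, mul_sum]
    _ ≤ Y * ∑ j ∈ Icc 1 Y, ((j : ℝ))⁻¹ := by
        refine mul_le_mul_of_nonneg_left ?_ (Nat.cast_nonneg _)
        refine sum_le_sum_of_subset_of_nonneg ?_ fun _ _ _ => by positivity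
        intro j hj
        obtain ⟨s, hs, rfl⟩ := mem_image.1 hj
        exact mem_Icc.2 ⟨hk1 s hs, hk2 s⟩
    _ ≤ Y * (1 + Real.log Y) := by
        refine mul_le_mul_of_nonneg_left ?_ (Nat.cast_nonneg _)
        have := harmonic_le_one_add_log Y
        rw [harmonic_eq_sum_Icc] at this
        push_cast at this
        exact this

/-- The additive large sieve: points `α r` that are `1/Y`-spaced modulo one. -/
theorem additive {ι : Type*} (S : Finset ι) (α : ι → ℝ) (Y : ℕ)
    (hsp : ∀ r ∈ S, ∀ s ∈ S, r ≠ s → 1 ≤ Y * Int.fract (α r - α s)) (X : ℕ) (c : ℕ → ℂ) :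
    ∑ r ∈ S, ‖∑ m ∈ range X, c m * ee (m * α r)‖ ^ 2
      ≤ (X + Y * (1 + Real.log Y)) * ∑ m ∈ range X, ‖c m‖ ^ 2 := by
  classical
  have hY : 0 ≤ (Y : ℝ) * (1 + Real.log Y) := by
    have := Real.log_natCast_nonneg Y
    positivity
  refine halasz S (range X) (fun r m => ee (m * α r)) c _ (by positivity) fun r hr => ?_
  have e : ∀ s, ∑ m ∈ range X, ee (m * α r) * conj (ee (m * α s))
      = ∑ m ∈ range X, ee (m * (α r - α s)) := by
    intro s
    refine sum_congr rfl fun m _ => ?_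
    rw [conj_ee, ← ee_add]; congr 1; ring
  simp only [e]
  rw [← add_sum_erase S _ hr]
  refine add_le_add ?_ ?_
  · refine (norm_sum_le _ _).trans (le_of_eq ?_)
    simp [norm_ee]
  · have h1 := spaced_sum S α Y hsp hr
    have h2 := spaced_sum S (fun s => - α s) Y (fun r hr s hs hne => by
      have := hsp s hs r hr (Ne.symm hne)
      have e : -α r - -α s = α s - α r := by ring
      rw [e]; exact this) hr
    calc _ ≤ ∑ s ∈ S.erase r, (1 / Int.fract (α r - α s) / 2 + 1 / Int.fract (-α r - -α s) / 2) := by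
          refine sum_le_sum fun s hs => ?_
          rw [mem_erase] at hs
          have h3 := hsp r hr s hs.2 (Ne.symm hs.1)
          have h4 : 0 < Int.fract (α r - α s) := by
            rcases (Int.fract_nonneg (α r - α s)).eq_or_lt with h | h
            · rw [← h] at h3; linarith
            · exact h
          refine (geom_bound X h4).trans (le_of_eq ?_)
          have e : -α r - -α s = -(α r - α s) := by ring
          rw [e, div_div, div_div, mul_comm _ (2 : ℝ), mul_comm _ (2 : ℝ)]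
      _ ≤ _ := by
          rw [sum_add_distrib, ← sum_div, ← sum_div]
          linarith

end Pool.Agent.Lib.LargeSieve
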