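import Pool.Agent.Lib.LargeSieve.Additive

/-!
# The multiplicative large sieve inequality (with a logarithmic loss)
-/

set_option autoImplicit false

namespace Pool.Agent.Lib.LargeSieve

open Finset Complex
open scoped ComplexConjugate

theorem conj_apply {q : ℕ} [NeZero q] (χ : DirichletCharacter ℂ q) {a : ZMod q} (ha : IsUnit a) :
    conj (χ a) = χ a⁻¹ := by
  have h1 : χ a⁻¹ * χ a = 1 := by rw [← map_mul, ZMod.inv_mul_of_unit a ha, map_one]
  have h2 : conj (χ a) * χ a = 1 := by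
    rw [Complex.conj_mul']
    have := DirichletCharacter.unit_norm_eq_one χ ha.unit
    rw [IsUnit.unit_spec] at this
    rw [this]; simp
  have h3 : χ a ≠ 0 := by intro h; rw [h, mul_zero] at h1; exact zero_ne_one h1
  exact mul_right_cancel₀ h3 (h2.trans h1.symm)

/-- Orthogonality of Dirichlet characters, in Parseval form. -/
theorem orth {ι : Type*} (q : ℕ) [NeZero q] (s : Finset ι) (r : ι → ZMod q)
    (hr : ∀ i ∈ s, IsUnit (r i)) (w : ι → ℂ) :
    ((∑ χ : DirichletCharacter ℂ q, ‖∑ i ∈ s, w i * χ (r i)‖ ^ 2 : ℝ) : ℂ)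
      = q.totient * ∑ i ∈ s, ∑ j ∈ s, if r j = r i then w i * conj (w j) else 0 := by
  push_cast
  have : ∀ χ : DirichletCharacter ℂ q, ((‖∑ i ∈ s, w i * χ (r i)‖ : ℂ)) ^ 2
      = ∑ i ∈ s, ∑ j ∈ s, w i * conj (w j) * (χ (r j)⁻¹ * χ (r i)) := by
    intro χ
    rw [← Complex.mul_conj']
    simp only [map_sum, map_mul, sum_mul_sum]
    refine sum_congr rfl fun i _ => sum_congr rfl fun j hj => ?_
    rw [conj_apply χ (hr j hj)]; ring
  simp only [this, mul_sum]
  rw [sum_comm]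
  refine sum_congr rfl fun i _ => ?_
  rw [sum_comm]
  refine sum_congr rfl fun j hj => ?_
  rw [← mul_sum, DirichletCharacter.sum_char_inv_mul_char_eq ℂ (hr j hj)]
  split_ifs <;> ring

/-- Counting congruent pairs with characters. -/
theorem orth_count {ι : Type*} (q : ℕ) [NeZero q] (s : Finset ι) (r : ι → ZMod q)
    (hr : ∀ i ∈ s, IsUnit (r i)) :
    ∑ χ : DirichletCharacter ℂ q, ‖∑ i ∈ s, χ (r i)‖ ^ 2
      = q.totient * (#((s ×ˢ s).filter fun x => r x.2 = r x.1) : ℝ) := by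
  have h := orth q s r hr (fun _ => 1)
  simp only [one_mul, map_one] at h
  have e : (∑ i ∈ s, ∑ j ∈ s, if r j = r i then (1 : ℂ) else 0)
      = (#((s ×ˢ s).filter fun x => r x.2 = r x.1) : ℂ) := by
    rw [card_filter, ← sum_product']
    push_cast
    rfl
  rw [e] at h
  exact_mod_cast h

theorem orth_inj (q : ℕ) [NeZero q] (s : Finset (ZMod q)) (hr : ∀ i ∈ s, IsUnit i)
    (w : ZMod q → ℂ) :
    ∑ χ : DirichletCharacter ℂ q, ‖∑ i ∈ s, w i * χ i‖ ^ 2
      = q.totient * ∑ i ∈ s, ‖w i‖ ^ 2 := by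
  have h := orth q s id hr w
  simp only [id] at h
  have e : (∑ i ∈ s, ∑ j ∈ s, if j = i then w i * conj (w j) else 0)
      = ((∑ i ∈ s, ‖w i‖ ^ 2 : ℝ) : ℂ) := by
    push_cast
    refine sum_congr rfl fun i hi => ?_
    rw [sum_ite_eq' s i, if_pos hi, Complex.mul_conj']
  rw [e] at h
  exact_mod_cast h

theorem gauss_norm {f : ℕ} [NeZero f] {χ : DirichletCharacter ℂ f} (hχ : χ.IsPrimitive) :
    ‖gaussSum χ (ZMod.stdAddChar (N := f))‖ ^ 2 = f := by
  set ψ := ZMod.stdAddChar (N := f) with hψ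
  have hp := ZMod.isPrimitive_stdAddChar f
  have e1 : ((∑ a : ZMod f, ‖gaussSum χ (ψ.mulShift a)‖ ^ 2 : ℝ) : ℂ)
      = ((f * ∑ x : ZMod f, ‖χ x‖ ^ 2 : ℝ) : ℂ) := by
    push_cast
    have : ∀ a : ZMod f, ((‖gaussSum χ (ψ.mulShift a)‖ : ℂ)) ^ 2
        = ∑ x : ZMod f, ∑ y : ZMod f, χ x * conj (χ y) * ψ (a * (x - y)) := by
      intro a
      rw [← Complex.mul_conj']
      simp only [gaussSum, AddChar.mulShift_apply, map_sum, map_mul, sum_mul_sum]
      refine sum_congr rfl fun x _ => sum_congr rfl fun y _ => ?_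
      rw [← AddChar.map_neg_eq_conj, mul_sub, sub_eq_add_neg, AddChar.map_add_eq_mul]; ring
    simp only [this]
    rw [sum_comm, mul_sum]
    refine sum_congr rfl fun x _ => ?_
    rw [sum_comm]
    have : ∀ y : ZMod f, ∑ a : ZMod f, χ x * conj (χ y) * ψ (a * (x - y))
        = if x = y then χ x * conj (χ y) * f else 0 := by
      intro y
      rw [← mul_sum, AddChar.sum_mulShift _ hp, ZMod.card]
      simp only [sub_eq_zero]
      split_ifs <;> simp
    simp only [this]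
    rw [sum_ite_eq, if_pos (mem_univ _), Complex.mul_conj']; ring
  have e2 : ∑ a : ZMod f, ‖gaussSum χ (ψ.mulShift a)‖ ^ 2
      = (∑ x : ZMod f, ‖χ x‖ ^ 2) * ‖gaussSum χ ψ‖ ^ 2 := by
    rw [sum_mul]
    refine sum_congr rfl fun a _ => ?_
    rw [gaussSum_mulShift_of_isPrimitive _ hχ, norm_mul, mul_pow, ← MulChar.star_apply', norm_star]
  have e3 : 0 < ∑ x : ZMod f, ‖χ x‖ ^ 2 := by
    refine lt_of_lt_of_le ?_ (single_le_sum (f := fun x => ‖χ x‖ ^ 2) (fun _ _ => by positivity)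
      (mem_univ 1))
    simp
  have e4 := Complex.ofReal_injective e1
  rw [e2, mul_comm (f : ℝ)] at e4
  exact mul_left_cancel₀ e3.ne' e4

open Classical in
/-- The primitive Dirichlet characters modulo `f`. -/
noncomputable def primSet (f : ℕ) : Finset (DirichletCharacter ℂ f) :=
  univ.filter fun χ => χ.IsPrimitive

theorem mem_primSet {f : ℕ} {χ : DirichletCharacter ℂ f} : χ ∈ primSet f ↔ χ.IsPrimitive := by
  simp [primSet]

theorem stdAddChar_eq_ee {f : ℕ} [NeZero f] (m : ℕ) (a : ZMod f) :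
    ZMod.stdAddChar (N := f) (m * a) = ee (m * ((a.val : ℝ) / f)) := by
  have : (m : ZMod f) * a = ((m * a.val : ℤ) : ZMod f) := by push_cast; simp
  rw [this, ZMod.stdAddChar_coe]
  unfold ee; congr 1; push_cast; ring

theorem prim_le_additive (f : ℕ) (hf : 0 < f) (X : ℕ) (c : ℕ → ℂ) :
    ∑ χ ∈ primSet f, ‖∑ m ∈ range X, c m * χ m‖ ^ 2
      ≤ ∑ a ∈ (range f).filter (fun a => Nat.Coprime a f),
          ‖∑ m ∈ range X, c m * ee (m * ((a : ℝ) / f))‖ ^ 2 := by
  classical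
  have : NeZero f := ⟨hf.ne'⟩
  set ψ := ZMod.stdAddChar (N := f) with hψ
  set T : ZMod f → ℂ := fun a => ∑ m ∈ range X, c m * ψ (m * a) with hT
  set U : Finset (ZMod f) := univ.filter fun a => IsUnit a with hU
  have e1 : ∀ χ ∈ primSet f, (f : ℝ) * ‖∑ m ∈ range X, c m * χ m‖ ^ 2
      = ‖∑ a ∈ U, conj (T a) * χ a‖ ^ 2 := by
    intro χ hχ
    rw [mem_primSet] at hχ
    have hχ' : χ⁻¹.IsPrimitive := by
      rw [DirichletCharacter.isPrimitive_def, DirichletCharacter.conductor_inv]; exact hχ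
    rw [← gauss_norm hχ', ← mul_pow, ← norm_mul, ← norm_conj (∑ a ∈ U, _)]
    congr 2
    have h1 : ∀ m : ℕ, gaussSum χ⁻¹ ψ * χ m = ∑ a : ZMod f, χ⁻¹ a * ψ (m * a) := by
      intro m
      have := gaussSum_mulShift_of_isPrimitive ψ hχ' (m : ZMod f)
      rw [inv_inv] at this
      rw [mul_comm, ← this]
      simp [gaussSum]
    have h2 : conj (∑ a ∈ U, conj (T a) * χ a) = ∑ a : ZMod f, χ⁻¹ a * T a := by
      rw [map_sum, hU, sum_filter]
      refine sum_congr rfl fun a _ => ?_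
      split_ifs with h
      · rw [map_mul, Complex.conj_conj, ← MulChar.star_apply', mul_comm]; rfl
      · rw [MulChar.map_nonunit _ h, zero_mul]
    rw [h2]
    simp only [hT, mul_sum]
    rw [sum_comm]
    refine sum_congr rfl fun m _ => ?_
    rw [mul_left_comm, h1, mul_sum]
    refine sum_congr rfl fun a _ => by ring
  have e2 : ∑ a ∈ U, ‖T a‖ ^ 2 = ∑ a ∈ (range f).filter (fun a => Nat.Coprime a f),
          ‖∑ m ∈ range X, c m * ee (m * ((a : ℝ) / f))‖ ^ 2 := by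
    refine sum_bij (fun a _ => a.val) ?_ ?_ ?_ ?_
    · intro a ha
      rw [hU, mem_filter] at ha
      refine mem_filter.2 ⟨mem_range.2 (ZMod.val_lt a), ?_⟩
      have := ZMod.val_coe_unit_coprime ha.2.unit
      rwa [IsUnit.unit_spec] at this
    · intro a _ b _ h
      exact ZMod.val_injective f h
    · intro b hb
      rw [mem_filter, mem_range] at hb
      refine ⟨(b : ZMod f), ?_, ZMod.val_cast_of_lt hb.1⟩
      rw [hU, mem_filter]
      exact ⟨mem_univ _, (ZMod.isUnit_iff_coprime b f).2 hb.2⟩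
    · intro a _
      simp only [hT, hψ, stdAddChar_eq_ee]
  have e3 := orth_inj f U (fun i hi => (mem_filter.1 hi).2) (fun a => conj (T a))
  simp only [norm_conj] at e3
  rw [← e2]
  have hf' : (0 : ℝ) < f := by exact_mod_cast hf
  refine le_of_mul_le_mul_left ?_ hf'
  rw [mul_sum, sum_congr rfl e1]
  calc _ ≤ ∑ χ : DirichletCharacter ℂ f, ‖∑ a ∈ U, conj (T a) * χ a‖ ^ 2 :=
        sum_le_sum_of_subset_of_nonneg (subset_univ _) fun _ _ _ => by positivity
    _ = _ := e3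
    _ ≤ _ := by
        refine mul_le_mul_of_nonneg_right ?_ (sum_nonneg fun _ _ => by positivity)
        exact_mod_cast Nat.totient_le f

theorem farey_spacing {Q f f' a a' : ℕ} (hf : f ∈ Icc 1 Q) (hf' : f' ∈ Icc 1 Q) (ha : a < f)
    (ha' : a' < f') (hc : Nat.Coprime a f) (hc' : Nat.Coprime a' f') (hne : ¬ (f = f' ∧ a = a')) :
    1 ≤ ((Q ^ 2 : ℕ) : ℝ) * Int.fract ((a : ℝ) / f - (a' : ℝ) / f') := by
  rw [mem_Icc] at hf hf'
  have h1 : (0 : ℝ) < f := by exact_mod_cast hf.1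
  have h1' : (0 : ℝ) < f' := by exact_mod_cast hf'.1
  have e : (a : ℝ) / f - (a' : ℝ) / f' = (((a * f' - a' * f : ℤ) : ℝ)) / ((f * f' : ℕ) : ℝ) := by
    push_cast; field_simp
  rw [e, Int.fract_div_intCast_eq_div_intCast_mod]
  set D : ℤ := a * f' - a' * f with hD
  have hpos : (0 : ℤ) < ((f * f' : ℕ) : ℤ) := by
    have := Nat.mul_pos hf.1 hf'.1
    exact_mod_cast this
  have hmod : 1 ≤ D % ((f * f' : ℕ) : ℤ) := by
    have h0 := Int.emod_nonneg D hpos.ne'
    by_contra hlt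
    have hz : D % ((f * f' : ℕ) : ℤ) = 0 := by omega
    have hdvd := Int.dvd_of_emod_eq_zero hz
    have hD0 : D = 0 := by
      refine Int.eq_zero_of_abs_lt_dvd hdvd ?_
      have i1 : (a : ℤ) < f := by exact_mod_cast ha
      have i2 : (a' : ℤ) < f' := by exact_mod_cast ha'
      have i3 : (0 : ℤ) < f := by exact_mod_cast hf.1
      have i4 : (0 : ℤ) < f' := by exact_mod_cast hf'.1
      have i5 : (0 : ℤ) ≤ a := Nat.cast_nonneg _
      have i6 : (0 : ℤ) ≤ a' := Nat.cast_nonneg _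
      rw [abs_lt, hD]; push_cast
      constructor <;> nlinarith
    have hn : a * f' = a' * f := by
      have : (a : ℤ) * f' = a' * f := by omega
      exact_mod_cast this
    have d1 : f ∣ f' := (Nat.Coprime.symm hc).dvd_of_dvd_mul_left (hn ▸ Dvd.intro_left _ rfl)
    have d2 : f' ∣ f := (Nat.Coprime.symm hc').dvd_of_dvd_mul_left (hn ▸ Dvd.intro_left _ rfl)
    have d3 : f = f' := Nat.dvd_antisymm d1 d2
    subst d3
    exact hne ⟨rfl, Nat.eq_of_mul_eq_mul_right hf.1 hn⟩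
  have h2 : (1 : ℝ) ≤ ((D % ((f * f' : ℕ) : ℤ) : ℤ) : ℝ) := by exact_mod_cast hmod
  have h3 : ((f * f' : ℕ) : ℝ) ≤ ((Q ^ 2 : ℕ) : ℝ) := by
    have := Nat.mul_le_mul hf.2 hf'.2
    rw [← sq] at this
    exact_mod_cast this
  have h4 : (0 : ℝ) < ((f * f' : ℕ) : ℝ) := by exact_mod_cast Nat.mul_pos hf.1 hf'.1
  rw [← mul_div_assoc, le_div_iff₀ h4]
  nlinarith

/-- The multiplicative large sieve. -/
theorem large_sieve (Q X : ℕ) (c : ℕ → ℂ) :
    ∑ f ∈ Icc 1 Q, ∑ χ ∈ primSet f, ‖∑ m ∈ range X, c m * χ m‖ ^ 2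
      ≤ (X + ((Q ^ 2 : ℕ) : ℝ) * (1 + Real.log ((Q ^ 2 : ℕ) : ℝ))) * ∑ m ∈ range X, ‖c m‖ ^ 2 := by
  have h := additive ((Icc 1 Q).sigma fun f => (range f).filter (fun a => Nat.Coprime a f))
    (fun x => (x.2 : ℝ) / x.1) (Q ^ 2) (by
      rintro ⟨f, a⟩ h1 ⟨f', a'⟩ h2 hne
      simp only [mem_sigma, mem_filter, mem_range] at h1 h2
      refine farey_spacing h1.1 h2.1 h1.2.1 h2.2.1 h1.2.2 h2.2.2 ?_
      rintro ⟨rfl, rfl⟩
      exact hne rfl) X c
  refine le_trans ?_ h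
  rw [sum_sigma]
  exact sum_le_sum fun f hf => prim_le_additive f (mem_Icc.1 hf).1 X c

/-- The large sieve for a family of integers `g i < X` in which each value is taken at most
`R` times. -/
theorem large_sieve_family {ι : Type*} (Q X R : ℕ) (T : Finset ι) (g : ι → ℕ)
    (hg : ∀ i ∈ T, g i < X) (hR : ∀ i ∈ T, #(T.filter fun j => g j = g i) ≤ R) :
    ∑ f ∈ Icc 1 Q, ∑ χ ∈ primSet f, ‖∑ i ∈ T, χ (g i)‖ ^ 2
      ≤ (X + ((Q ^ 2 : ℕ) : ℝ) * (1 + Real.log ((Q ^ 2 : ℕ) : ℝ))) * (R * #T) := by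
  set c : ℕ → ℂ := fun m => (#(T.filter fun j => g j = m) : ℂ) with hc
  have h := large_sieve Q X c
  have hm : ∀ i ∈ T, g i ∈ range X := fun i hi => mem_range.2 (hg i hi)
  have e1 : ∀ (f : ℕ) (χ : DirichletCharacter ℂ f),
      ∑ i ∈ T, χ (g i) = ∑ m ∈ range X, c m * χ m := by
    intro f χ
    rw [← sum_fiberwise_of_maps_to hm]
    refine sum_congr rfl fun m _ => ?_
    rw [sum_congr rfl (g := fun _ => χ m) (fun i hi => by rw [(mem_filter.1 hi).2])]
    simp [hc]
  have e2 : ∑ m ∈ range X, ‖c m‖ ^ 2 ≤ R * #T := by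
    have : (#T : ℝ) = ∑ m ∈ range X, (#(T.filter fun j => g j = m) : ℝ) := by
      rw [card_eq_sum_card_fiberwise hm]; push_cast; rfl
    rw [this, mul_sum]
    refine sum_le_sum fun m _ => ?_
    simp only [hc, Complex.norm_natCast]
    rcases (T.filter fun j => g j = m).eq_empty_or_nonempty with h0 | ⟨i, hi⟩
    · simp [h0]
    · rw [mem_filter] at hi
      have := hR i hi.1
      rw [hi.2] at this
      have h2 : (#(T.filter fun j => g j = m) : ℝ) ≤ R := by exact_mod_cast this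
      rw [sq]
      exact mul_le_mul_of_nonneg_right h2 (Nat.cast_nonneg _)
  simp only [e1]
  refine h.trans (mul_le_mul_of_nonneg_left e2 ?_)
  have := Real.log_natCast_nonneg (Q ^ 2)
  positivity

/-- Passing from all characters modulo `q` to primitive characters of conductor dividing `q`,
for a quantity that depends only on the values at integers coprime to `q`. -/
theorem sum_le_sum_primitive (q : ℕ) (hq : 0 < q) (Φ : (ℕ → ℂ) → ℝ) (h0 : ∀ v, 0 ≤ Φ v)
    (hΦ : ∀ v v' : ℕ → ℂ, (∀ m, Nat.Coprime m q → v m = v' m) → Φ v = Φ v') :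
    ∑ χ : DirichletCharacter ℂ q, Φ (fun m => χ m)
      ≤ ∑ f ∈ q.divisors, ∑ χ ∈ primSet f, Φ (fun m => χ m) := by
  classical
  have : NeZero q := ⟨hq.ne'⟩
  rw [sum_sigma']
  set π : DirichletCharacter ℂ q → (Σ f : ℕ, DirichletCharacter ℂ f) :=
    fun χ => ⟨χ.conductor, χ.primitiveCharacter⟩ with hπ
  have hval : ∀ (χ : DirichletCharacter ℂ q) (m : ℕ), Nat.Coprime m q →
      (π χ).2 m = χ m := by
    intro χ m hm
    have := χ.primitiveCharacter_apply_of_isCoprime (a := (m : ℤ)) (Nat.isCoprime_iff_coprime.2 hm)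
    simpa using this
  have hinj : Function.Injective π := by
    intro χ χ' h
    ext a
    have h1 := hval χ _ (ZMod.val_coe_unit_coprime a)
    have h2 := hval χ' _ (ZMod.val_coe_unit_coprime a)
    rw [h] at h1
    rw [h1] at h2
    simpa using h2
  calc _ = ∑ χ : DirichletCharacter ℂ q, Φ (fun m => (π χ).2 m) :=
        sum_congr rfl fun χ _ => hΦ _ _ fun m hm => (hval χ m hm).symm
    _ = ∑ x ∈ univ.image π, Φ (fun m => x.2 m) := by
        rw [sum_image fun a _ b _ h => hinj h]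
    _ ≤ _ := by
        refine sum_le_sum_of_subset_of_nonneg ?_ fun _ _ _ => h0 _
        intro x hx
        obtain ⟨χ, -, rfl⟩ := mem_image.1 hx
        exact mem_sigma.2 ⟨Nat.mem_divisors.2 ⟨χ.conductor_dvd_level, hq.ne'⟩,
          mem_primSet.2 χ.primitiveCharacter_isPrimitive⟩

end Pool.Agent.Lib.LargeSieve
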